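import Mathlib
import Pool.Agent.Helper4.RK.Defs
import Pool.Agent.Helper62.VT.Final

/-!
# Parameters of read-k programs
-/

namespace Pool.Agent.Helper75.RK

open MvPolynomial
open Pool.Agent.Helper4.RK
open Pool.Agent.Helper62.VT (split W split_X_mem split_X_not C_mem_W X_mem_W polynomial_aeval_mem)

variable {n : ℕ}

/-- A list is cut at the elements satisfying `P`: the first piece and the other pieces. -/
def gaps {α : Type} (P : α → Bool) : List α → List α × List (List α)
  | [] => ([], [])
  | p :: L => if P p then ([], (gaps P L).1 :: (gaps P L).2) else (p :: (gaps P L).1, (gaps P L).2)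

theorem gaps_fst_sublist {α : Type} (P : α → Bool) : ∀ L : List α, (gaps P L).1.Sublist L
  | [] => List.Sublist.refl _
  | p :: L => by
    rw [gaps]
    split_ifs
    · exact List.nil_sublist _
    · exact (gaps_fst_sublist P L).cons_cons p

theorem gaps_snd_sublist {α : Type} (P : α → Bool) : ∀ L : List α, ∀ g ∈ (gaps P L).2, g.Sublist L
  | [] => by
    intro g hg
    rw [gaps] at hg
    simp at hg
  | p :: L => by
    intro g hg
    rw [gaps] at hg
    split_ifs at hg
    · rcases List.mem_cons.1 hg with rfl | hg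
      · exact (gaps_fst_sublist P L).cons p
      · exact (gaps_snd_sublist P L g hg).cons p
    · exact (gaps_snd_sublist P L g hg).cons p

theorem gaps_snd_length {α : Type} (P : α → Bool) : ∀ L : List α,
    (gaps P L).2.length = L.countP P
  | [] => by simp [gaps]
  | p :: L => by
    rw [gaps]
    split_ifs with h
    · rw [List.length_cons, gaps_snd_length P L, List.countP_cons, if_pos h]
    · rw [gaps_snd_length P L, List.countP_cons, if_neg h, add_zero]

section Split

variable {r : ℕ} {ι : Type} [Fintype ι] [DecidableEq ι] (e : Fin r → Fin n)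

/-- The split of a program is the first piece times a matrix built from the other pieces. -/
theorem split_lprod (he : Function.Injective e) (P : Fin n × Matrix ι ι (Polynomial ℂ) → Bool)
    (hP : ∀ p, P p = true ↔ ∃ j, e j = p.1) (S : Subalgebra ℂ (MvPolynomial (Fin n) ℂ)) :
    ∀ L : List (Fin n × Matrix ι ι (Polynomial ℂ)),
      (∀ g ∈ (gaps P L).2, ∀ i j, lprod g i j ∈ S) →
      ∃ Rm : Matrix ι ι (MvPolynomial (Fin r) (MvPolynomial (Fin n) ℂ)),
        (∀ i j, Rm i j ∈ W r S) ∧
        (lprod L).map (split e (X : Fin n → MvPolynomial (Fin n) ℂ)) =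
          (lprod (gaps P L).1).map (C : MvPolynomial (Fin n) ℂ →
            MvPolynomial (Fin r) (MvPolynomial (Fin n) ℂ)) * Rm
  | [] => by
    intro _
    refine ⟨1, ?_, ?_⟩
    · intro i j
      rw [Matrix.one_apply]
      split_ifs
      · exact Subalgebra.one_mem _
      · exact Subalgebra.zero_mem _
    · rw [mul_one]
      have h1 : lprod (n := n) (ι := ι) [] = 1 := rfl
      have h2 : (gaps P ([] : List (Fin n × Matrix ι ι (Polynomial ℂ)))).1 = [] := rfl
      rw [h2, h1, Matrix.map_one _ (map_zero _) (map_one _), Matrix.map_one _ C_0 C_1]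
  | p :: L => by
    intro hg
    have hcons : ∀ (q : Fin n × Matrix ι ι (Polynomial ℂ)) (M : List (Fin n × Matrix ι ι (Polynomial ℂ))),
        lprod (q :: M) = (q.2.map fun f => Polynomial.aeval (X q.1 : MvPolynomial (Fin n) ℂ) f) *
          lprod M := fun q M => by
      rw [lprod, lprod, List.map_cons, List.prod_cons]
    have hmap : ∀ (A B : Matrix ι ι (MvPolynomial (Fin n) ℂ)),
        (A * B).map (split e (X : Fin n → MvPolynomial (Fin n) ℂ)) =
          A.map (split e (X : Fin n → MvPolynomial (Fin n) ℂ)) *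
            B.map (split e (X : Fin n → MvPolynomial (Fin n) ℂ)) := fun A B =>
      Matrix.map_mul (f := (split e (X : Fin n → MvPolynomial (Fin n) ℂ)).toRingHom)
    have hmapC : ∀ (A B : Matrix ι ι (MvPolynomial (Fin n) ℂ)),
        (A * B).map (C : MvPolynomial (Fin n) ℂ → MvPolynomial (Fin r) (MvPolynomial (Fin n) ℂ)) =
          A.map C * B.map C := fun A B =>
      Matrix.map_mul (f := (C : MvPolynomial (Fin n) ℂ →+*
        MvPolynomial (Fin r) (MvPolynomial (Fin n) ℂ)))
    by_cases hp : P p = true
    · have h1 : gaps P (p :: L) = ([], (gaps P L).1 :: (gaps P L).2) := by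
        rw [gaps, if_pos hp]
      rw [h1] at hg ⊢
      obtain ⟨Rm, hR1, hR2⟩ := split_lprod he P hP S L fun g hg' =>
        hg g (List.mem_cons_of_mem _ hg')
      have hfst := hg (gaps P L).1 (List.mem_cons_self)
      obtain ⟨j, hj⟩ := (hP p).1 hp
      refine ⟨(p.2.map fun f => Polynomial.aeval (X p.1 : MvPolynomial (Fin n) ℂ) f).map
        (split e (X : Fin n → MvPolynomial (Fin n) ℂ)) * ((lprod (gaps P L).1).map
          (C : MvPolynomial (Fin n) ℂ → MvPolynomial (Fin r) (MvPolynomial (Fin n) ℂ)) * Rm), ?_, ?_⟩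
      · intro i i'
        rw [Matrix.mul_apply]
        refine Subalgebra.sum_mem _ fun s _ => Subalgebra.mul_mem _ ?_ ?_
        · rw [Matrix.map_apply, Matrix.map_apply, ← Polynomial.aeval_algHom_apply, ← hj,
            split_X_mem he]
          exact polynomial_aeval_mem (X_mem_W _ j) _
        · rw [Matrix.mul_apply]
          refine Subalgebra.sum_mem _ fun s' _ => Subalgebra.mul_mem _ ?_ (hR1 _ _)
          rw [Matrix.map_apply]
          exact C_mem_W (hfst s s')
      · have h2 : lprod (n := n) (ι := ι) [] = 1 := rfl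
        rw [hcons, hmap, hR2, h2, Matrix.map_one _ C_0 C_1, one_mul]
    · have h1 : gaps P (p :: L) = (p :: (gaps P L).1, (gaps P L).2) := by
        rw [gaps, if_neg hp]
      rw [h1] at hg ⊢
      obtain ⟨Rm, hR1, hR2⟩ := split_lprod he P hP S L hg
      refine ⟨Rm, hR1, ?_⟩
      rw [hcons, hcons, hmap, hmapC, hR2, mul_assoc]
      congr 1
      have hnot : ∀ j, e j ≠ p.1 := fun j hj => hp ((hP p).2 ⟨j, hj⟩)
      ext1 i i'
      rw [Matrix.map_apply, Matrix.map_apply, Matrix.map_apply, ← Polynomial.aeval_algHom_apply,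
        split_X_not _ hnot, ← MvPolynomial.algebraMap_eq, Polynomial.aeval_algebraMap_apply,
        Matrix.map_apply]

end Split

theorem rki_zero (ι : Type) [Fintype ι] [DecidableEq ι] (k : ℕ) :
    RKi ι k (0 : MvPolynomial (Fin n) ℂ) :=
  ⟨[], 0, 0, by simp, by simp⟩

theorem rki_entry {ι : Type} [Fintype ι] [DecidableEq ι] {k : ℕ}
    (L : List (Fin n × Matrix ι ι (Polynomial ℂ))) (hL : ∀ i, (L.map Prod.fst).count i ≤ k)
    (i j : ι) : RKi ι k (lprod L i j) := by
  classical
  refine ⟨L, Pi.single i 1, Pi.single j 1, hL, ?_⟩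
  rw [Finset.sum_eq_single i, Finset.sum_eq_single j]
  · rw [Pi.single_eq_same, Pi.single_eq_same, C_1, one_mul, mul_one]
  · intro j' _ hj'
    rw [Pi.single_eq_of_ne hj', C_0, mul_zero]
  · intro h
    exact absurd (Finset.mem_univ j) h
  · intro i' _ hi'
    apply Finset.sum_eq_zero
    intro j' _
    rw [Pi.single_eq_of_ne hi', C_0, zero_mul, zero_mul]
  · intro h
    exact absurd (Finset.mem_univ i) h

/-- The number of positions reading one of few variables. -/
theorem countP_le {α : Type} {r k : ℕ} (e : Fin r → Fin n) (L : List (Fin n × α))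
    (hL : ∀ i, (L.map Prod.fst).count i ≤ k) (P : Fin n × α → Bool)
    (hP : ∀ p, P p = true ↔ ∃ j, e j = p.1) : L.countP P ≤ r * k := by
  classical
  have h1 : ∀ M : List (Fin n × α), M.countP P ≤ ∑ j : Fin r, (M.map Prod.fst).count (e j) := by
    intro M
    induction M with
    | nil => simp
    | cons p M ih =>
      rw [List.countP_cons]
      have h2 : ∑ j : Fin r, ((p :: M).map Prod.fst).count (e j) =
          ∑ j : Fin r, (M.map Prod.fst).count (e j) + ∑ j : Fin r, (if p.1 = e j then 1 else 0) := by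
        rw [← Finset.sum_add_distrib]
        refine Finset.sum_congr rfl fun j _ => ?_
        rw [List.map_cons, List.count_cons]
        simp only [beq_iff_eq]
      rw [h2]
      refine Nat.add_le_add ih ?_
      split_ifs with h
      · obtain ⟨j, hj⟩ := (hP p).1 h
        calc 1 = (if p.1 = e j then 1 else 0) := by rw [if_pos hj.symm]
          _ ≤ ∑ j : Fin r, (if p.1 = e j then 1 else 0) :=
            Finset.single_le_sum (f := fun j => if p.1 = e j then 1 else 0)
              (fun _ _ => Nat.zero_le _) (Finset.mem_univ j)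
      · exact Nat.zero_le _
  refine (h1 L).trans ?_
  calc ∑ j : Fin r, (L.map Prod.fst).count (e j) ≤ ∑ _j : Fin r, k :=
        Finset.sum_le_sum fun j _ => hL (e j)
    _ = r * k := by rw [Finset.sum_const, Finset.card_univ, Fintype.card_fin, smul_eq_mul]

/-- The parameters of a tuple of read-k programs. -/
theorem exists_params {n r R w k q : ℕ} {e : Fin r → Fin n} (he : Function.Injective e) (hr : r ≤ R)
    (f : Fin q → MvPolynomial (Fin n) ℂ) (hf : ∀ j, IsRK w k (f j)) :
    ∃ γ : Fin (q * ((R * k + 1) * w ^ 2)) → MvPolynomial (Fin n) ℂ, (∀ j, IsRK w k (γ j)) ∧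
      ∀ j, split e (MvPolynomial.X : Fin n → MvPolynomial (Fin n) ℂ) (f j) ∈
        W r (Algebra.adjoin ℂ (Set.range γ)) := by
  classical
  choose L u v hL hf using hf
  let P : Fin n × Matrix (Fin w) (Fin w) (Polynomial ℂ) → Bool := fun p => decide (∃ j, e j = p.1)
  have hP : ∀ p, P p = true ↔ ∃ j, e j = p.1 := fun p => decide_eq_true_iff
  let gl : Fin q → List (List (Fin n × Matrix (Fin w) (Fin w) (Polynomial ℂ))) := fun j =>
    (gaps P (L j)).1 :: (gaps P (L j)).2
  have hlen : ∀ j, (gl j).length ≤ R * k + 1 := by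
    intro j
    change (gaps P (L j)).2.length + 1 ≤ R * k + 1
    rw [gaps_snd_length]
    exact Nat.succ_le_succ ((countP_le e (L j) (hL j) P hP).trans (Nat.mul_le_mul_right k hr))
  have hsub : ∀ j, ∀ g ∈ gl j, g.Sublist (L j) := by
    intro j g hg
    rcases List.mem_cons.1 hg with rfl | hg
    · exact gaps_fst_sublist P _
    · exact gaps_snd_sublist P _ g hg
  have hcard : Fintype.card (Fin q × Fin (R * k + 1) × Fin w × Fin w) ≤
      Fintype.card (Fin (q * ((R * k + 1) * w ^ 2))) := by
    rw [Fintype.card_prod, Fintype.card_prod, Fintype.card_prod, Fintype.card_fin,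
      Fintype.card_fin, Fintype.card_fin, Fintype.card_fin, sq]
  obtain ⟨ι⟩ := Function.Embedding.nonempty_of_card_le hcard
  let γ0 : Fin q × Fin (R * k + 1) × Fin w × Fin w → MvPolynomial (Fin n) ℂ := fun p =>
    lprod ((gl p.1).getD p.2.1 []) p.2.2.1 p.2.2.2
  refine ⟨Function.extend ι γ0 0, ?_, ?_⟩
  · intro j
    by_cases h : ∃ p, ι p = j
    · obtain ⟨p, rfl⟩ := h
      rw [ι.injective.extend_apply]
      refine rki_entry _ ?_ _ _
      intro i
      by_cases hlt : (p.2.1 : ℕ) < (gl p.1).length
      · rw [List.getD_eq_getElem _ _ hlt]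
        exact (((hsub p.1 _ (List.getElem_mem hlt)).map Prod.fst).count_le i).trans (hL p.1 i)
      · rw [List.getD_eq_default _ _ (not_lt.1 hlt)]
        simp
    · rw [Function.extend_apply' _ _ _ h]
      exact rki_zero _ _
  · intro j
    set S := Algebra.adjoin ℂ (Set.range (Function.extend ι γ0 0)) with hS
    have hmem : ∀ g ∈ gl j, ∀ i i', lprod g i i' ∈ S := by
      intro g hg i i'
      obtain ⟨t, ht, rfl⟩ := List.getElem_of_mem hg
      apply Algebra.subset_adjoin
      refine ⟨ι (j, ⟨t, lt_of_lt_of_le ht (hlen j)⟩, i, i'), ?_⟩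
      rw [ι.injective.extend_apply]
      change lprod ((gl j).getD t []) i i' = _
      rw [List.getD_eq_getElem _ _ ht]
    obtain ⟨Rm, hR1, hR2⟩ := split_lprod e he P hP S (L j)
      (fun g hg => hmem g (List.mem_cons_of_mem _ hg))
    have h1 : ∀ i i', split e (X : Fin n → MvPolynomial (Fin n) ℂ) (lprod (L j) i i') ∈ W r S := by
      intro i i'
      have h2 := congrFun (congrFun hR2 i) i'
      rw [Matrix.map_apply] at h2
      rw [h2, Matrix.mul_apply]
      refine Subalgebra.sum_mem _ fun s _ => Subalgebra.mul_mem _ ?_ (hR1 _ _)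
      rw [Matrix.map_apply]
      exact C_mem_W (hmem _ List.mem_cons_self i s)
    have h2 : ∀ (c : ℂ), split e (X : Fin n → MvPolynomial (Fin n) ℂ) (C c) ∈ W r S := by
      intro c
      rw [← MvPolynomial.algebraMap_eq, AlgHom.commutes]
      exact Subalgebra.algebraMap_mem _ c
    rw [hf j, map_sum]
    refine Subalgebra.sum_mem _ fun i _ => ?_
    rw [map_sum]
    refine Subalgebra.sum_mem _ fun i' _ => ?_
    rw [map_mul, map_mul]
    exact Subalgebra.mul_mem _ (Subalgebra.mul_mem _ (h2 _) (h1 i i')) (h2 _)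

end Pool.Agent.Helper75.RK
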